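import Mathlib
import Pool.Agent.Q199.Mem.Words
set_option autoImplicit false

/-! # MP_4814b8_lc, Q1: a winning condition `W` such that `W` and its complement both have finite
general memory, but `W` has infinite chromatic memory (positive answer).

`Arena`, `Strategy`, `MemStr`, `GenMem` and `ChrMem` (in `Pool.Agent.Q199.Mem.Defs`) are the notions
of the problem: finite arenas, strategies on finite paths (the same strategy for all starting
nodes), memory structures with `k` states, and the least number of states of general, respectively
chromatic, memory with which Protagonist plays optimally in every arena.

The condition: the four colours act on a counter in `ℕ` that starts at `1`, with `0` absorbing: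
`n ↦ n - 1`; `n ↦ n` if `n ≠ 2` and `2 ↦ 0`; `n ↦ n + 1`; `n ↦ 2n + [n is a perfect square]`
(for `n ≥ 1`). A word is in `W` if the counter never hits `0`. Call `n` better than `m` if `n = m`
or `n ≥ m + 2`; all the operations preserve this relation and do not decrease the difference of
related counter values. For `W`, Protagonist remembers the parity of the least winning counter
value that is not better than the current one. For the complement of `W` he remembers the parity
of the largest winning counter value below a bound that depends on the arena; the difference to
the actual value cannot decrease, so from some time on it is constant and then the rank of the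
attractor decreases. -/

namespace Pool.Agent.Results.MP_4814b8_lc.BothGeneralFinite

open Pool.Agent.Q199.Mem

/-- There are a finite set of colours and a condition `W` over it with `GenMem W = 2`,
`GenMem (¬W) ≤ 2` and `ChrMem W = ∞`. -/
theorem result : ∃ (n : ℕ) (W : Set (ℕ → Fin n)),
    GenMem W = 2 ∧ GenMem Wᶜ ≤ 2 ∧ ChrMem W = ⊤ :=
  ⟨4, safeW op4, genMem_two (genOK_safe good4) (not_chrOK4 1),
    genMem_le (by norm_num) (genOK_compl good4), chrMem_top fun k _ => not_chrOK4 k⟩

end Pool.Agent.Results.MP_4814b8_lc.BothGeneralFinite
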